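import Pool.Agent.H672R3.InfRec

set_option autoImplicit false

/-!
# Limit points of prime gaps at the record scale: all differences of a subsequence

Design and proof: helper672 (infinite Ramsey theorem and a diagonal argument). It rests on the coloured
Maynard-Tao theorem inside the record windows (`Pool.Agent.H362R2.RQ.stRQ`, helper362), the record sieve of
helper256 and helper410 and the Maynard-Tao sieve inside record windows of helper312's team.
-/

open Filter Topology

namespace Pool.Agent.Results.MP_3bc45c_nt.LimitPointSubsequences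

/-- The record scale `f(x) = log x (log₂ x)² log₄ x / (log₃ x)²` (iterated natural logarithms). -/
noncomputable def f (x : ℝ) : ℝ :=
  Real.log x * (Real.log (Real.log x)) ^ 2 * Real.log (Real.log (Real.log (Real.log x))) /
    (Real.log (Real.log (Real.log x))) ^ 2

/-- The set of the vectors `v ∈ ℝ^m` such that for every `ε > 0` there are infinitely many `n` with
`p_(n+i) ≡ a i (mod q)` for `0 ≤ i ≤ m` and `|(p_(n+i+1) - p_(n+i)) / f(p_n) - v i| < ε` for
`0 ≤ i < m` (`p_n` is the prime with index `n`): the limit points of the vectors of `m` consecutive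
gaps divided by `f`, along blocks of `m + 1` consecutive primes in prescribed classes modulo `q`. -/
def LimitPoints (m q : ℕ) (a : Fin (m + 1) → ℕ) : Set (Fin m → ℝ) :=
  {v | ∀ ε : ℝ, 0 < ε → ∃ᶠ n : ℕ in atTop,
    (∀ i : Fin (m + 1), Nat.nth Nat.Prime (n + i) ≡ a i [MOD q]) ∧
    ∀ i : Fin m, |((Nat.nth Nat.Prime (n + i + 1) : ℝ) - Nat.nth Nat.Prime (n + i)) /
      f (Nat.nth Nat.Prime n) - v i| < ε}

/-- For every index `s` let `β s` be a sequence of positive reals which decreases strictly to `0`, `q s` a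
squarefree modulus and `a s` a sequence of residues prime to `q s`. There is one strictly increasing `φ` such
that for all `s` and `m` and all sufficiently large `i_0 > i_1 > ... > i_m` the vector
`(β s (φ i_1) - β s (φ i_0), ..., β s (φ i_m) - β s (φ i_(m-1)))` is a limit point of the vectors of `m`
consecutive prime gaps divided by `f`, along the blocks with `p_(n+r) ≡ a s (φ i_r) (mod q s)`. -/
theorem result (q : ℕ → ℕ) (hq : ∀ s, Squarefree (q s)) (β : ℕ → ℕ → ℝ)
    (hβ : ∀ s, StrictAnti (β s)) (hβ0 : ∀ s j, 0 < β s j)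
    (ht : ∀ s, Tendsto (β s) atTop (𝓝 0)) (a : ℕ → ℕ → ℕ) (ha : ∀ s j, (a s j).Coprime (q s)) :
    ∃ φ : ℕ → ℕ, StrictMono φ ∧ ∀ s m : ℕ, ∃ N : ℕ, ∀ i : Fin (m + 1) → ℕ, StrictAnti i →
      (∀ r, N ≤ i r) →
      (fun r : Fin m => β s (φ (i r.succ)) - β s (φ (i r.castSucc))) ∈
        LimitPoints m (q s) (fun r => a s (φ (i r))) :=
  Pool.Agent.H672R3.InfRec.subsequence q hq β hβ hβ0 ht a ha

/-- Special case (one sequence, single gaps): every sequence `x` which decreases strictly to `0` has a
subsequence `x ∘ φ` such that for all `k ≤ i < j` the numbers `x (φ i) - x (φ j)` and, for `k ≤ i`, the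
numbers `x (φ i)` are limit points of the sequence `(p_(n+1) - p_n) / f(p_n)`. -/
theorem single (x : ℕ → ℝ) (hx : StrictAnti x) (hx0 : ∀ j, 0 < x j) (ht : Tendsto x atTop (𝓝 0)) :
    ∃ φ : ℕ → ℕ, StrictMono φ ∧ ∃ k : ℕ, ∀ i, k ≤ i →
      (∀ j, i < j → (fun _ => x (φ i) - x (φ j)) ∈ LimitPoints 1 1 (fun _ => 0)) ∧
      (fun _ => x (φ i)) ∈ LimitPoints 1 1 (fun _ => 0) := by
  obtain ⟨φ, hφ, h⟩ := result (fun _ => 1) (fun _ => squarefree_one) (fun _ => x) (fun _ => hx)
    (fun _ => hx0) (fun _ => ht) (fun _ _ => 0) (fun _ _ => by simp)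
  obtain ⟨N, hN⟩ := h 0 1
  have h1 : ∀ i, N ≤ i → ∀ j, i < j →
      (fun _ => x (φ i) - x (φ j)) ∈ LimitPoints 1 1 (fun _ => 0) := by
    intro i hi j hij
    have h2 := hN ![j, i] (by
      intro u v huv
      fin_cases u <;> fin_cases v <;> simp_all) (by
      intro r
      fin_cases r
      · exact hi.trans hij.le
      · exact hi)
    convert h2 using 2
    rename_i r
    fin_cases r
    rfl
  refine ⟨φ, hφ, N, fun i hi => ⟨h1 i hi, fun ε hε => ?_⟩⟩
  obtain ⟨j, hj1, hj2⟩ := (((ht.comp hφ.tendsto_atTop).eventually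
    (gt_mem_nhds (show (0 : ℝ) < ε / 2 by positivity))).and (eventually_gt_atTop i)).exists
  refine (h1 i hi j hj2 (ε / 2) (by positivity)).mono fun n hn => ⟨hn.1, fun r => ?_⟩
  have h3 := hn.2 r
  have h4 := hx0 (φ j)
  simp only [Function.comp] at hj1
  rw [abs_lt] at h3 ⊢
  constructor <;> linarith [h3.1, h3.2]

end Pool.Agent.Results.MP_3bc45c_nt.LimitPointSubsequences
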