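import Mathlib
import Pool.Agent.H108R4.PG.Cram

set_option autoImplicit false

open Filter Topology Set

/-! # The limit values of `G(X) / (log X)²` form a closed interval; sparse tests of Cramér's Q1 -/

namespace Pool.Agent.Results.MP_3bc45c_nt.LimitValuesInterval

/-- `G X`: the largest gap between consecutive primes up to `X` -/
noncomputable def G (X : ℝ) : ℕ :=
  sSup {g : ℕ | ∃ n : ℕ, (Nat.nth Nat.Prime (n + 1) : ℝ) ≤ X ∧
    g = Nat.nth Nat.Prime (n + 1) - Nat.nth Nat.Prime n}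

/-- the Cramér quotient `G(X) / (log X)²` -/
noncomputable def F (X : ℝ) : EReal := (((G X : ℝ) / Real.log X ^ 2 : ℝ) : EReal)

/-- the quotient of one gap, `(p_{n+1} - p_n) / (log p_{n+1})²` -/
noncomputable def V (n : ℕ) : EReal :=
  ((((Nat.nth Nat.Prime (n + 1) : ℝ) - Nat.nth Nat.Prime n) /
    Real.log (Nat.nth Nat.Prime (n + 1)) ^ 2 : ℝ) : EReal)

theorem result :
    -- `G X` is the greatest of the gaps between consecutive primes up to `X`
    (∀ X : ℝ, 3 ≤ X → IsGreatest {g : ℕ | ∃ n : ℕ, (Nat.nth Nat.Prime (n + 1) : ℝ) ≤ X ∧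
      g = Nat.nth Nat.Prime (n + 1) - Nat.nth Nat.Prime n} (G X)) ∧
    -- the limit values of the quotient form the closed interval `[liminf, limsup]`
    ({y | MapClusterPt y atTop F} = Icc (liminf F atTop) (limsup F atTop) ∧
      limsup F atTop = limsup V atTop) ∧
    -- all of them are seen along every sequence with `log X_{j+1} / log X_j → 1`
    (∀ x : ℕ → ℝ, Monotone x → Tendsto x atTop atTop →
      Tendsto (fun j => Real.log (x (j + 1)) / Real.log (x j)) atTop (𝓝 1) →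
      {y | MapClusterPt y atTop (fun j => F (x j))} = Icc (liminf F atTop) (limsup F atTop) ∧
      ∀ L : EReal, Tendsto (fun j => F (x j)) atTop (𝓝 L) ↔ Tendsto F atTop (𝓝 L)) ∧
    -- Q1 may be tested along every sequence with `log X_{j+1} ≤ K log X_j`
    (∀ x : ℕ → ℝ, Monotone x → Tendsto x atTop atTop →
      (∃ K : ℝ, ∀ᶠ j in atTop, Real.log (x (j + 1)) ≤ K * Real.log (x j)) →
      ((∃ c C : ℝ, 0 < c ∧ ∀ᶠ j in atTop, c * Real.log (x j) ^ 2 ≤ (G (x j) : ℝ) ∧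
        (G (x j) : ℝ) ≤ C * Real.log (x j) ^ 2) ↔
      (∃ c C : ℝ, 0 < c ∧ ∀ᶠ X : ℝ in atTop, c * Real.log X ^ 2 ≤ (G X : ℝ) ∧
        (G X : ℝ) ≤ C * Real.log X ^ 2))) := by
  refine ⟨fun X hX => H108R4.PG.Cr.isGreatest hX,
    ⟨H108R4.PG.Cr.F_cont, H108R4.PG.Cr.F_limsup⟩, ?_, ?_⟩
  · intro x h1 h2 h3
    obtain ⟨h4, h5⟩ := H108R4.PG.Cr.F_seq x h1 h2 h3
    exact ⟨h4, fun L => ⟨h5 L, fun h => h.comp h2⟩⟩
  · intro x h1 h2 h3
    exact H108R4.PG.Cr.order_seq x h2 h1 h3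

end Pool.Agent.Results.MP_3bc45c_nt.LimitValuesInterval
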